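import Pool.Agent.V7H56.QP.Tree

/-!
# An uncountable chain of quasi-parabolic hyperbolic structures on `ℤ ≀ ℤ`

For a real number `s > 0` let `Q_s` be the set of the elements `a` of the base group of `ℤ ≀ ℤ` such
that `2 ^ ⌊s m⌋` divides `a (-m)` for all `m ≥ 0`, and let `X_s = Q_s ∪ {t}`. Then `Q_s` is strictly
confining for `t`, the Cayley graph of `X_s` is quasi-isometric to the Bass-Serre tree of an ascending
HNN extension, the action is quasi-parabolic, and `[X_s] < [X_{s'}]` for `s < s'`.
-/

set_option autoImplicit false

namespace Pool.Agent.Results.MP_484ff1_al.RealChainH56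

open Pool.Agent.V7H56.QP

/-- The group `ℤ ≀ ℤ` is finitely generated, and the poset of its quasi-parabolic hyperbolic structures
contains a chain which is order isomorphic to the real line, in particular an uncountable chain. -/
theorem result : Group.FG ZwrZ ∧ ∃ f : ℝ → HQP ZwrZ, StrictMono f ∧
    IsChain (· ≤ ·) (Set.range f) ∧ ¬ (Set.range f).Countable := by
  refine ⟨inferInstance, chain, chain_strict, ?_, ?_⟩
  · rintro _ ⟨r, rfl⟩ _ ⟨s, rfl⟩ _
    rcases le_total r s with h | h
    · exact Or.inl (chain_strict.monotone h)
    · exact Or.inr (chain_strict.monotone h)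
  · intro h
    have h1 : (Set.univ : Set ℝ).Countable := by
      have h2 : (chain ⁻¹' Set.range chain).Countable := h.preimage_of_injOn
        chain_strict.injective.injOn
      rwa [Set.preimage_range] at h2
    exact Cardinal.not_countable_real h1

end Pool.Agent.Results.MP_484ff1_al.RealChainH56
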